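import Pool.Agent.Lib.Pdb93e3.Proof

/-!
Diffusion limited aggregation on the hypercube ends after `o(2^n)` steps.
The definitions are in `Pool.Agent.Lib.Pdb93e3.Defs`, the proof in `Pool.Agent.Lib.Pdb93e3.Proof`.
-/

open MeasureTheory ProbabilityTheory Filter Topology

namespace Pool.Agent.Results.MP_db93e3_pr.EndTime

open Pool.Agent.Lib.Pdb93e3

/-- The end time of diffusion limited aggregation on the hypercube is `o(2^n)` with high
probability. -/
theorem result : ∀ ε : ℝ, 0 < ε →
    Tendsto (fun n : ℕ => walkLaw n {ρ | ENNReal.ofReal (ε * 2 ^ n) < ((tEnd ρ : ℕ∞) : ENNReal)})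
      atTop (𝓝 0) := by
  intro ε hε
  refine tendsto_of_tendsto_of_tendsto_of_le_of_le' tendsto_const_nhds quantitative
    (Eventually.of_forall fun _ => zero_le) ?_
  have hy : Tendsto (fun n : ℕ => (n : ℝ) ^ ((1 : ℝ) / 3)) atTop atTop :=
    (tendsto_rpow_atTop (by norm_num)).comp tendsto_natCast_atTop_atTop
  have h1 : Tendsto (fun n : ℕ => Real.exp (-((n : ℝ) ^ ((1 : ℝ) / 3) / 10))) atTop (𝓝 0) :=
    Real.tendsto_exp_neg_atTop_nhds_zero.comp (hy.atTop_div_const (by norm_num))
  filter_upwards [h1.eventually_le_const hε] with n hn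
  apply measure_mono
  intro ρ hρ
  simp only [Set.mem_ofPred_eq] at hρ ⊢
  refine lt_of_le_of_lt ?_ hρ
  apply ENNReal.ofReal_le_ofReal
  gcongr


end Pool.Agent.Results.MP_db93e3_pr.EndTime
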